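import Pool.Agent.TH255.HK.Link
import Mathlib.NumberTheory.NumberField.Basic

/-!
# Algebraic integers, and Diophantine relations between natural numbers
-/

set_option autoImplicit false

open Height NumberField

namespace Pool.Agent.TH255.HK

open Pool.Agent.TH255.HC (U)

variable {K : Type} [Field K]

theorem PF.sum {α : Type*} (s : Finset α) {f : α → (ℕ → K) → K} (h : ∀ a, PF (f a)) :
    PF (fun v => ∑ a ∈ s, f a v) := by
  classical
  induction s using Finset.induction_on with
  | empty => exact PF.zero.congr' fun v => by simp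
  | insert a s ha ih => exact ((h a).add ih).congr' fun v => by rw [Finset.sum_insert ha]

variable [NumberField K] {B : ℕ}

/-- substituting polynomial functions for the variables -/
theorem DK.subst {P : (K → K → Prop) → (ℕ → K) → Prop} (h : DK B P) (N : ℕ)
    (hP : ∀ R w w', (∀ i < N, w i = w' i) → P R w → P R w') {r : ℕ → (ℕ → K) → K}
    (hr : ∀ i, PF (r i)) : DK B (fun R v => P R (fun i => r i v)) := by
  have h' : DK B (fun R v => ∃ u : ℕ → K, (∀ i ∈ List.range N, u i = r i v) ∧ P R u) := by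
    refine DK.exs ?_
    exact (DK.list _ fun i => DK.eq (PF.od i) (hr i).ev).and (h.ren (fun n => 2 * n + 1))
  refine h'.congr fun R _ v => ?_
  constructor
  · intro hp
    exact ⟨fun i => r i v, fun _ _ => rfl, hp⟩
  · rintro ⟨u, hu, hp⟩
    exact hP R _ _ (fun i hi => hu i (List.mem_range.2 hi)) hp

/-- the value is a natural number -/
theorem dkn {f : (ℕ → K) → K} (hf : PF f) : DK (B + 1) (fun _ v => ∃ n : ℕ, f v = n) := by
  classical
  exact (dk_nats 0).subst 1 (fun R w w' h => by rw [h 0 (by norm_num)]; exact id) (r := fun _ => f)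
    (fun _ => hf)

/-- the value is an integer -/
theorem dkz {f : (ℕ → K) → K} (hf : PF f) : DK (B + 1) (fun _ v => ∃ z : ℤ, f v = z) := by
  classical
  exact (dk_int 0).subst 1 (fun R w w' h => by rw [h 0 (by norm_num)]; exact id) (r := fun _ => f)
    (fun _ => hf)

/-- the values form a tuple in a recursively enumerable set -/
theorem dkre {W : ℕ → Prop} (hW : REPred W) {f : (ℕ → K) → K} (hf : PF f) :
    DK (B + 1) (fun _ v => ∃ a : ℕ, f v = a ∧ W a) := by
  classical
  exact (dk_re hW).subst 1 (fun R w w' h => by rw [h 0 (by norm_num)]; exact id) (r := fun _ => f)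
    (fun _ => hf)

/-- a Diophantine relation between the values -/
theorem dkv {m : ℕ} {S : Set (Fin m → ℕ)} (hS : Dioph S) {f : Fin m → (ℕ → K) → K}
    (hf : ∀ i, PF (f i)) :
    DK (B + 1) (fun _ v => ∃ a : Fin m → ℕ, (∀ i, f i v = a i) ∧ a ∈ S) := by
  classical
  have h : DK (K := K) (B + 1) (fun _ v => ∃ u : ℕ → K,
      (∀ i ∈ List.finRange m, ∃ n : ℕ, f i v = n ∧ Cd (u (2 * (i : ℕ))) (u (2 * (i : ℕ) + 1)) n) ∧
      ∃ a : Fin m → ℕ, (∀ i : Fin m, Co u i (a i)) ∧ a ∈ S) := by
    refine DK.exs ?_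
    refine DK.and (DK.list _ fun i => ?_) ((dk_dioph hS).ren (fun k => 2 * k + 1))
    refine dk_link.subst 3 (fun R w w' h => ?_)
      (r := fun k v => if k = 0 then f i (fun n => v (2 * n)) else
        if k = 1 then v (2 * (2 * (i : ℕ)) + 1) else v (2 * (2 * (i : ℕ) + 1) + 1)) (fun k => ?_)
    · rw [h 0 (by norm_num), h 1 (by norm_num), h 2 (by norm_num)]
      exact id
    · by_cases h0 : k = 0
      · simp only [h0, if_true]
        exact (hf i).ev
      · by_cases h1 : k = 1
        · simp only [h1, if_true, one_ne_zero, if_false]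
          exact PF.var _
        · simp only [h0, h1, if_false]
          exact PF.var _
  refine h.congr fun _ _ v => ?_
  constructor
  · rintro ⟨a, ha, hS⟩
    refine ⟨enc K (fun i => if h : i < m then ((a ⟨i, h⟩ : ℕ) : ℤ) else 0), fun i _ => ?_, a,
      fun i => ?_, hS⟩
    · refine ⟨a i, ha i, ?_⟩
      have := enc_co K (fun i => if h : i < m then ((a ⟨i, h⟩ : ℕ) : ℤ) else 0) (i : ℕ)
      simp only [i.2, dif_pos] at this
      exact this
    · have := enc_co K (fun i => if h : i < m then ((a ⟨i, h⟩ : ℕ) : ℤ) else 0) (i : ℕ)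
      simp only [i.2, dif_pos] at this
      exact this
  · rintro ⟨u, hu, a, ha, hS⟩
    refine ⟨a, fun i => ?_, hS⟩
    obtain ⟨n, hn, hc⟩ := hu i (List.mem_finRange i)
    have h4 : (n : ℤ) = a i := Cd.inj hc (ha i)
    have h5 : n = a i := by exact_mod_cast h4
    rw [hn, h5]

/-- algebraic integers -/
theorem dko {f : (ℕ → K) → K} (hf : PF f) :
    DK (B + 1) (fun _ v => ∃ z : 𝓞 K, f v = algebraMap (𝓞 K) K z) := by
  classical
  let ω := RingOfIntegers.basis K
  let ι := Module.Free.ChooseBasisIndex ℤ (𝓞 K)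
  let e := Fintype.equivFin ι
  have h : DK (K := K) (B + 1) (fun _ v => ∃ u : ℕ → K,
      (∀ i ∈ List.range (Fintype.card ι), ∃ z : ℤ, u i = z) ∧
      f v = ∑ i : ι, u (e i) * algebraMap (𝓞 K) K (ω i)) := by
    refine DK.exs ?_
    refine DK.and (DK.list _ fun i => dkz (PF.od i)) (DK.eq hf.ev ?_)
    exact PF.sum _ fun i => (PF.var _).mul (PF.const _)
  refine h.congr fun _ _ v => ?_
  constructor
  · rintro ⟨z, hz⟩
    refine ⟨fun k => if h : k < Fintype.card ι then ((ω.repr z (e.symm ⟨k, h⟩) : ℤ) : K) else 0,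
      fun i hi => ?_, ?_⟩
    · rw [List.mem_range] at hi
      exact ⟨ω.repr z (e.symm ⟨i, hi⟩), by simp only [hi, dif_pos]⟩
    · rw [hz]
      conv_lhs => rw [← ω.sum_repr z]
      rw [map_sum]
      refine Finset.sum_congr rfl fun i _ => ?_
      simp only [Fin.is_lt, dif_pos, Fin.eta, Equiv.symm_apply_apply]
      rw [map_zsmul, zsmul_eq_mul]
  · rintro ⟨u, hu, h⟩
    choose! z hz using fun i (hi : i ∈ List.range (Fintype.card ι)) => hu i hi
    refine ⟨∑ i : ι, z (e i) • ω i, ?_⟩
    rw [h, map_sum]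
    refine Finset.sum_congr rfl fun i _ => ?_
    rw [hz (e i) (List.mem_range.2 (e i).2), map_zsmul, zsmul_eq_mul]

end Pool.Agent.TH255.HK
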