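import Mathlib.NumberTheory.NumberField.ClassNumber
import Mathlib.RingTheory.DedekindDomain.AdicValuation
import Mathlib.RingTheory.DedekindDomain.Factorization

/-!
# The pole relation and powers
-/

set_option autoImplicit false

open NumberField IsDedekindDomain nonZeroDivisors

namespace Pool.Agent.TH255.RK

variable {K : Type} [Field K] [NumberField K]

/-- `b` has a pole at every prime above a prime number in `Q` at which `a` has a pole -/
def PoleRel (K : Type) [Field K] [NumberField K] (Q : Set ℕ) (a b : K) : Prop :=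
  ∀ v : HeightOneSpectrum (𝓞 K), (∃ p : ℕ, p.Prime ∧ p ∈ Q ∧ (p : 𝓞 K) ∈ v.asIdeal) →
    1 < v.valuation K a → 1 < v.valuation K b

/-- the `h`-th power of an element, `h` the class number, has coprime numerator and
denominator -/
lemma coprime_rep (b : K) : ∃ β γ u w : 𝓞 K, γ ≠ 0 ∧
    algebraMap (𝓞 K) K γ * b ^ classNumber K = algebraMap (𝓞 K) K β ∧ u * β + w * γ = 1 := by
  classical
  obtain ⟨⟨α, k, hk⟩, hb⟩ := IsLocalization.surj (𝓞 K)⁰ b
  have hk0 : k ≠ 0 := nonZeroDivisors.ne_zero hk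
  simp only at hb
  set I : Ideal (𝓞 K) := Ideal.span {α} ⊔ Ideal.span {k} with hI
  have hI0 : I ≠ ⊥ := by
    intro h
    have h1 : k ∈ I := Ideal.mem_sup_right (Ideal.mem_span_singleton_self k)
    rw [h, Ideal.mem_bot] at h1
    exact hk0 h1
  obtain ⟨B', hB⟩ : I ∣ Ideal.span {α} := Ideal.dvd_iff_le.mpr le_sup_left
  obtain ⟨C', hC⟩ : I ∣ Ideal.span {k} := Ideal.dvd_iff_le.mpr le_sup_right
  have hcop : IsCoprime B' C' := by
    rw [Ideal.isCoprime_iff_sup_eq]
    have h1 : I * (B' ⊔ C') = I * ⊤ := by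
      rw [Ideal.mul_sup, ← hB, ← hC, Ideal.mul_top]
    exact mul_left_cancel₀ hI0 h1
  set h := classNumber K with hh
  have hprin : (I ^ h).IsPrincipal := by
    have hI1 : I ∈ (Ideal (𝓞 K))⁰ := mem_nonZeroDivisors_of_ne_zero hI0
    rw [← ClassGroup.mk0_eq_one_iff (pow_mem hI1 h)]
    have h2 : ClassGroup.mk0 (⟨I ^ h, pow_mem hI1 h⟩ : (Ideal (𝓞 K))⁰) =
        ClassGroup.mk0 (⟨I, hI1⟩ : (Ideal (𝓞 K))⁰) ^ h := by
      rw [← map_pow]
      rfl
    rw [h2, hh, classNumber]
    exact pow_card_eq_one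
  obtain ⟨g, hg⟩ := hprin.principal
  have hg' : I ^ h = Ideal.span {g} := hg
  have hg0 : g ≠ 0 := by
    rintro rfl
    rw [Ideal.span_singleton_eq_bot.mpr rfl] at hg'
    exact pow_ne_zero h hI0 hg'
  have hαh : Ideal.span {α ^ h} = Ideal.span {g} * B' ^ h := by
    rw [← Ideal.span_singleton_pow, hB, mul_pow, hg']
  have hkh : Ideal.span {k ^ h} = Ideal.span {g} * C' ^ h := by
    rw [← Ideal.span_singleton_pow, hC, mul_pow, hg']
  obtain ⟨β, hβ⟩ : g ∣ α ^ h := by
    apply Ideal.span_singleton_le_span_singleton.mp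
    rw [hαh]
    exact Ideal.mul_le_left
  obtain ⟨γ, hγ⟩ : g ∣ k ^ h := by
    apply Ideal.span_singleton_le_span_singleton.mp
    rw [hkh]
    exact Ideal.mul_le_left
  have hgs : (Ideal.span {g} : Ideal (𝓞 K)) ≠ 0 := by
    rw [Ne, Ideal.zero_eq_bot, Ideal.span_singleton_eq_bot]
    exact hg0
  have hβs : Ideal.span {β} = B' ^ h := by
    apply mul_left_cancel₀ hgs
    rw [Ideal.span_singleton_mul_span_singleton, ← hβ, hαh]
  have hγs : Ideal.span {γ} = C' ^ h := by
    apply mul_left_cancel₀ hgs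
    rw [Ideal.span_singleton_mul_span_singleton, ← hγ, hkh]
  have hcop2 : IsCoprime β γ := by
    rw [← Ideal.isCoprime_span_singleton_iff, hβs, hγs]
    exact hcop.pow
  obtain ⟨u, w, huw⟩ := hcop2
  refine ⟨β, γ, u, w, ?_, ?_, huw⟩
  · rintro rfl
    rw [mul_zero] at hγ
    exact pow_ne_zero h hk0 hγ
  · have hgK : algebraMap (𝓞 K) K g ≠ 0 := by
      rw [Ne, FaithfulSMul.algebraMap_eq_zero_iff]
      exact hg0
    apply mul_left_cancel₀ hgK
    rw [← mul_assoc, ← map_mul, ← map_mul, ← hβ, ← hγ, map_pow, map_pow, ← hb]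
    ring

/-- the number `m` has no prime divisor in `Q` -/
def NoP (Q : Set ℕ) (m : ℕ) : Prop := m ≠ 0 ∧ ∀ p ∈ Q, p.Prime → ¬ p ∣ m

/-- valuations of natural numbers -/
lemma val_nat_eq_one {v : HeightOneSpectrum (𝓞 K)} {p m : ℕ} (hp : p.Prime)
    (hv : (p : 𝓞 K) ∈ v.asIdeal) (hm : ¬ p ∣ m) : v.valuation K (m : K) = 1 := by
  have h1 : (m : 𝓞 K) ∉ v.asIdeal := by
    intro h
    have h2 : IsCoprime (p : ℤ) (m : ℤ) := by
      rw [Nat.isCoprime_iff_coprime]
      exact (Nat.Prime.coprime_iff_not_dvd hp).mpr hm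
    obtain ⟨x, y, hxy⟩ := h2
    have h3 : (1 : 𝓞 K) ∈ v.asIdeal := by
      have h4 : (1 : 𝓞 K) = (x : 𝓞 K) * p + (y : 𝓞 K) * m := by
        exact_mod_cast congrArg (fun t : ℤ => (t : 𝓞 K)) hxy.symm
      rw [h4]
      exact v.asIdeal.add_mem (v.asIdeal.mul_mem_left _ hv) (v.asIdeal.mul_mem_left _ h)
    exact v.isPrime.ne_top (v.asIdeal.eq_top_of_isUnit_mem h3 isUnit_one)
  have h5 := (HeightOneSpectrum.valuation_eq_one_iff_notMem (K := K) (v := v) (r := (m : 𝓞 K))).mpr h1
  rwa [map_natCast] at h5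

/-- a natural number in a prime ideal has a prime factor in it -/
lemma exists_factor (v : HeightOneSpectrum (𝓞 K)) : ∀ n : ℕ, n ≠ 0 → (n : 𝓞 K) ∈ v.asIdeal →
    ∃ p : ℕ, p.Prime ∧ p ∣ n ∧ (p : 𝓞 K) ∈ v.asIdeal := by
  intro n
  induction n using Nat.strong_induction_on with
  | _ n ih =>
    intro hn hv
    have h1 : n ≠ 1 := by
      rintro rfl
      rw [Nat.cast_one] at hv
      exact v.isPrime.ne_top (v.asIdeal.eq_top_of_isUnit_mem hv isUnit_one)
    have hp := Nat.minFac_prime h1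
    obtain ⟨m, hm⟩ := Nat.minFac_dvd n
    have hm' : (n : 𝓞 K) = ((n.minFac : ℕ) : 𝓞 K) * (m : 𝓞 K) := by
      conv_lhs => rw [hm]
      push_cast
      rfl
    rw [hm'] at hv
    rcases v.isPrime.mem_or_mem hv with h | h
    · exact ⟨_, hp, Nat.minFac_dvd n, h⟩
    · have hm0 : m ≠ 0 := by
        rintro rfl
        rw [mul_zero] at hm
        exact hn hm
      have hlt : m < n := by
        have h2 := hp.two_le
        have h3 : 2 * m ≤ n.minFac * m := Nat.mul_le_mul_right m h2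
        have h4 : 0 < m := Nat.pos_of_ne_zero hm0
        omega
      obtain ⟨p, hp1, hp2, hp3⟩ := ih m hlt hm0 h
      exact ⟨p, hp1, hp2.trans (Dvd.intro_left _ hm.symm), hp3⟩

/-- every prime lies above a prime number -/
lemma exists_prime (v : HeightOneSpectrum (𝓞 K)) : ∃ p : ℕ, p.Prime ∧ (p : 𝓞 K) ∈ v.asIdeal := by
  have h1 : Ideal.absNorm v.asIdeal ≠ 0 := by
    rw [Ne, Ideal.absNorm_eq_zero_iff]
    exact v.ne_bot
  obtain ⟨p, hp, -, hv⟩ := exists_factor v _ h1 (Ideal.absNorm_mem _)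
  exact ⟨p, hp, hv⟩

/-- splitting off the prime factors in `Q` -/
lemma split_nat (Q : Set ℕ) (k : ℕ) : k ≠ 0 → ∃ m m' : ℕ, k = m * m' ∧ NoP Q m ∧
    ∀ p : ℕ, p.Prime → p ∣ m' → p ∈ Q := by
  induction k using induction_on_primes with
  | zero => exact fun h => absurd rfl h
  | one =>
    intro _
    refine ⟨1, 1, rfl, ⟨one_ne_zero, fun p _ hp h => hp.one_lt.ne' (Nat.dvd_one.mp h)⟩,
      fun p hp h => absurd (Nat.dvd_one.mp h) hp.one_lt.ne'⟩
  | prime_mul p a hp ih =>
    intro hpa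
    have ha : a ≠ 0 := fun h => hpa (by rw [h, mul_zero])
    obtain ⟨m, m', h1, ⟨h2, h3⟩, h4⟩ := ih ha
    by_cases hQ : p ∈ Q
    · refine ⟨m, p * m', by rw [h1]; ring, ⟨h2, h3⟩, fun q hq hd => ?_⟩
      rcases (Nat.Prime.dvd_mul hq).mp hd with h | h
      · rw [(Nat.prime_dvd_prime_iff_eq hq hp).mp h]
        exact hQ
      · exact h4 q hq h
    · refine ⟨p * m, m', by rw [h1]; ring, ⟨mul_ne_zero hp.ne_zero h2, fun q hqQ hq hd => ?_⟩, h4⟩
      rcases (Nat.Prime.dvd_mul hq).mp hd with h | h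
      · rw [(Nat.prime_dvd_prime_iff_eq hq hp).mp h] at hqQ
        exact hQ hqQ
      · exact h3 q hqQ hq h

/-- a uniform exponent -/
lemma exists_exponent (γ : 𝓞 K) (hγ : γ ≠ 0) {k : ℕ} (hk : k ≠ 0) : ∃ N : ℕ,
    ∀ v : HeightOneSpectrum (𝓞 K), v.valuation K (algebraMap (𝓞 K) K γ) < 1 →
      v.valuation K (algebraMap (𝓞 K) K γ) ^ N ≤ v.valuation K (k : K) := by
  classical
  have hk0 : (k : 𝓞 K) ≠ 0 := by exact_mod_cast hk
  have hkK : (k : K) = algebraMap (𝓞 K) K (k : 𝓞 K) := by rw [map_natCast]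
  have hfin : {v : HeightOneSpectrum (𝓞 K) | v.asIdeal ∣ Ideal.span {(k : 𝓞 K)}}.Finite :=
    Ideal.finite_factors (by
      rw [Ne, Ideal.zero_eq_bot, Ideal.span_singleton_eq_bot]
      exact hk0)
  have hex : ∀ v : HeightOneSpectrum (𝓞 K), ∃ N : ℕ,
      v.valuation K (algebraMap (𝓞 K) K γ) < 1 →
        v.valuation K (algebraMap (𝓞 K) K γ) ^ N ≤ v.valuation K (k : K) := by
    intro v
    by_cases h1 : v.valuation K (algebraMap (𝓞 K) K γ) < 1
    · have hγ0 : v.valuation K (algebraMap (𝓞 K) K γ) ≠ 0 := by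
        rw [Valuation.ne_zero_iff, Ne, FaithfulSMul.algebraMap_eq_zero_iff]
        exact hγ
      have hk1 : v.valuation K (k : K) ≠ 0 := by
        rw [Valuation.ne_zero_iff]
        exact_mod_cast hk
      have h2 : 1 < (v.valuation K (algebraMap (𝓞 K) K γ))⁻¹ :=
        (one_lt_inv₀ (zero_lt_iff.mpr hγ0)).mpr h1
      obtain ⟨N, hN⟩ := MulArchimedean.arch (v.valuation K (k : K))⁻¹ h2
      refine ⟨N, fun _ => ?_⟩
      rw [inv_pow] at hN
      exact (inv_le_inv₀ (zero_lt_iff.mpr hk1) (zero_lt_iff.mpr (pow_ne_zero _ hγ0))).mp hN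
    · exact ⟨0, fun h => absurd h h1⟩
  choose Nv hNv using hex
  refine ⟨hfin.toFinset.sup Nv, fun v hv => ?_⟩
  by_cases hvk : v.asIdeal ∣ Ideal.span {(k : 𝓞 K)}
  · have h1 : Nv v ≤ hfin.toFinset.sup Nv :=
      Finset.le_sup (f := Nv) (hfin.mem_toFinset.mpr hvk)
    exact (pow_le_pow_right_of_le_one' hv.le h1).trans (hNv v hv)
  · have h1 : ¬ v.valuation K (k : K) < 1 := by
      rw [hkK, HeightOneSpectrum.valuation_lt_one_iff_dvd]
      exact hvk
    refine le_trans ?_ (not_lt.mp h1)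
    exact pow_le_one' hv.le _

theorem pole_iff (Q : Set ℕ) (a b : K) : PoleRel K Q a b ↔
    ∃ (β γ u w c : 𝓞 K) (N m : ℕ), γ ≠ 0 ∧
      algebraMap (𝓞 K) K γ * b ^ classNumber K = algebraMap (𝓞 K) K β ∧
      u * β + w * γ = 1 ∧ NoP Q m ∧
      (m : K) * a * algebraMap (𝓞 K) K γ ^ N = algebraMap (𝓞 K) K c := by
  classical
  have hh : classNumber K ≠ 0 := Fintype.card_ne_zero
  have hle : ∀ (v : HeightOneSpectrum (𝓞 K)) (r : 𝓞 K),
      v.valuation K (algebraMap (𝓞 K) K r) ≤ 1 := fun v r => v.valuation_le_one r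
  have hnat : ∀ (v : HeightOneSpectrum (𝓞 K)) (r : ℕ), v.valuation K (r : K) ≤ 1 := by
    intro v r
    have := hle v (r : 𝓞 K)
    rwa [map_natCast] at this
  constructor
  · intro hP
    obtain ⟨β, γ, u, w, hγ, hb, huw⟩ := coprime_rep b
    obtain ⟨y, hy, hay⟩ := ((IsFractionRing.isAlgebraic_iff ℤ ℚ K).mpr
      (Algebra.IsAlgebraic.isAlgebraic (R := ℚ) a)).exists_integral_multiple
    set k : ℕ := y.natAbs with hk
    have hk0 : k ≠ 0 := Int.natAbs_ne_zero.mpr hy
    obtain ⟨α, hα⟩ : ∃ α : 𝓞 K, (k : K) * a = algebraMap (𝓞 K) K α := by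
      have h1 : IsIntegral ℤ ((k : K) * a) := by
        rcases Int.natAbs_eq y with h | h
        · rw [h, zsmul_eq_mul, Int.cast_natCast] at hay
          exact hay
        · rw [h, zsmul_eq_mul, Int.cast_neg, Int.cast_natCast, neg_mul] at hay
          have := hay.neg
          rwa [neg_neg] at this
      exact ⟨⟨_, h1⟩, rfl⟩
    obtain ⟨m, m', hmm, hm, hm'⟩ := split_nat Q k hk0
    obtain ⟨N, hN⟩ := exists_exponent γ hγ hk0
    have hint : ∀ v : HeightOneSpectrum (𝓞 K),
        v.valuation K ((m : K) * a * algebraMap (𝓞 K) K γ ^ N) ≤ 1 := by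
      intro v
      rw [map_mul, map_mul, map_pow]
      have hγN : v.valuation K (algebraMap (𝓞 K) K γ) ^ N ≤ 1 := pow_le_one' (hle v γ) N
      by_cases ha : v.valuation K a ≤ 1
      · exact mul_le_one' (mul_le_one' (hnat v m) ha) hγN
      · have ha := not_le.mp ha
        have hka : v.valuation K (k : K) * v.valuation K a ≤ 1 := by
          rw [← map_mul, hα]
          exact hle v α
        obtain ⟨p, hp, hpv⟩ := exists_prime v
        by_cases hpQ : p ∈ Q
        · have hb1 : 1 < v.valuation K b := hP v ⟨p, hp, hpQ, hpv⟩ ha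
          have hγ1 : v.valuation K (algebraMap (𝓞 K) K γ) < 1 := by
            by_contra hcon
            have h1 : v.valuation K (algebraMap (𝓞 K) K γ) = 1 :=
              le_antisymm (hle v γ) (not_lt.mp hcon)
            have h2 := hle v β
            rw [← hb, map_mul, map_pow, h1, one_mul] at h2
            exact absurd (one_lt_pow₀ hb1 hh) (not_lt.mpr h2)
          have h3 := hN v hγ1
          calc v.valuation K (m : K) * v.valuation K a *
                v.valuation K (algebraMap (𝓞 K) K γ) ^ N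
              ≤ 1 * v.valuation K a * v.valuation K (k : K) :=
                mul_le_mul' (mul_le_mul' (hnat v m) le_rfl) h3
            _ = v.valuation K (k : K) * v.valuation K a := by rw [one_mul, mul_comm]
            _ ≤ 1 := hka
        · have h1 : v.valuation K (m' : K) = 1 :=
            val_nat_eq_one hp hpv fun hd => hpQ (hm' p hp hd)
          have h2 : v.valuation K (k : K) = v.valuation K (m : K) := by
            rw [hmm, Nat.cast_mul, map_mul, h1, mul_one]
          rw [h2] at hka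
          exact mul_le_one' hka hγN
    obtain ⟨c, hc⟩ := HeightOneSpectrum.mem_integers_of_valuation_le_one K _ hint
    exact ⟨β, γ, u, w, c, N, m, hγ, hb, huw, hm, hc.symm⟩
  · rintro ⟨β, γ, u, w, c, N, m, hγ, hb, huw, ⟨hm0, hm⟩, hc⟩ v ⟨p, hp, hQ, hv⟩ ha
    by_contra hb1
    have hb1 := not_lt.mp hb1
    have h1 : v.valuation K (algebraMap (𝓞 K) K γ) = 1 := by
      apply le_antisymm (hle v γ)
      by_contra hlt
      have hlt := not_le.mp hlt
      have h2 : v.valuation K (algebraMap (𝓞 K) K β) < 1 := by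
        rw [← hb, map_mul, map_pow]
        exact mul_lt_one_of_nonneg_of_lt_one_left zero_le' hlt (pow_le_one' hb1 _)
      have h3 := congrArg (fun t => v.valuation K (algebraMap (𝓞 K) K t)) huw
      simp only [map_add, map_mul, map_one] at h3
      have h4 : v.valuation K (algebraMap (𝓞 K) K u * algebraMap (𝓞 K) K β +
          algebraMap (𝓞 K) K w * algebraMap (𝓞 K) K γ) < 1 := by
        refine (Valuation.map_add _ _ _).trans_lt (max_lt ?_ ?_)
        · rw [map_mul]
          exact mul_lt_one_of_nonneg_of_lt_one_right (hle v u) zero_le' h2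
        · rw [map_mul]
          exact mul_lt_one_of_nonneg_of_lt_one_right (hle v w) zero_le' hlt
      exact absurd h3 h4.ne
    have h5 : v.valuation K (m : K) = 1 := val_nat_eq_one hp hv (hm p hQ hp)
    have h6 := hle v c
    rw [← hc, map_mul, map_mul, map_pow, h1, h5, one_mul, one_pow, mul_one] at h6
    exact absurd ha (not_lt.mpr h6)

end Pool.Agent.TH255.RK
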