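import Pool.Agent.TH255.RK.PowDk
import Pool.Agent.TH255.RK.Pole
import Pool.Agent.TH255.HK.Int

/-!
# The pole relation is definable with a comparison of heights
-/

set_option autoImplicit false

open Height NumberField

namespace Pool.Agent.TH255.HK

open MvPolynomial

variable {K : Type} [Field K] [NumberField K] {B : ℕ}

/-- finitely many equations are one equation over `K` -/
theorem single_K {τ : Type} (L : List (MvPolynomial τ K)) :
    ∃ G : MvPolynomial τ K, ∀ y : τ → K, eval y G = 0 ↔ ∀ p ∈ L, eval y p = 0 := by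
  obtain ⟨m, hm, hm'⟩ := Int.exists_m K
  induction L with
  | nil => exact ⟨0, fun y => by simp⟩
  | cons p L ih =>
    obtain ⟨G, hG⟩ := ih
    refine ⟨p ^ m - 2 * G ^ m, fun y => ?_⟩
    rw [List.forall_mem_cons, ← hG, map_sub, map_mul, map_pow, map_pow, map_ofNat]
    constructor
    · intro h
      have h1 : (eval y p : K) ^ m = 2 * (eval y G) ^ m := sub_eq_zero.mp h
      have hG0 : (eval y G : K) = 0 := by
        by_contra hne
        apply hm' ((eval y p : K) / eval y G)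
        rw [div_pow, h1, mul_div_assoc, div_self (pow_ne_zero _ hne), mul_one]
      rw [hG0, zero_pow hm, mul_zero] at h1
      exact ⟨pow_eq_zero_iff hm |>.mp h1, hG0⟩
    · rintro ⟨h1, h2⟩
      rw [h1, h2, zero_pow hm, mul_zero, sub_zero]

/-- the final form for binary relations -/
theorem DK.final2 {P : K → K → Prop} (h : DK B (fun _ v => P (v 0) (v 1))) :
    ∃ (n : ℕ) (f : MvPolynomial (Fin 2 ⊕ Fin n) K)
      (S : Finset ((Fin 2 ⊕ Fin n) × (Fin 2 ⊕ Fin n))), ∀ R : K → K → Prop, BtwK B R →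
        ∀ a b : K, P a b ↔ ∃ z : Fin n → K, eval (Sum.elim ![a, b] z) f = 0 ∧
          ∀ s ∈ S, R (Sum.elim ![a, b] z s.1) (Sum.elim ![a, b] z s.2) := by
  classical
  obtain ⟨F, S, hp⟩ := h
  obtain ⟨N, hN, hS⟩ : ∃ N : ℕ, (∀ p ∈ F, ∀ i ∈ p.vars, i < N) ∧ ∀ s ∈ S, s.1 < N ∧ s.2 < N := by
    refine ⟨(F.map (fun p => p.vars.sup id)).sum + (S.map (fun s => s.1 + s.2)).sum + 1,
      fun p hp i hi => ?_, fun s hs => ?_⟩
    · have h1 : id i ≤ p.vars.sup id := Finset.le_sup hi
      have h2 : p.vars.sup id ≤ (F.map (fun p => p.vars.sup id)).sum :=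
        List.single_le_sum (fun _ _ => Nat.zero_le _) _
          (List.mem_map_of_mem (f := fun p : MvPolynomial ℕ K => p.vars.sup id) hp)
      simp only [id] at h1
      omega
    · have : s.1 + s.2 ≤ (S.map (fun s => s.1 + s.2)).sum :=
        List.single_le_sum (fun _ _ => Nat.zero_le _) _ (List.mem_map_of_mem hs)
      omega
  let g : ℕ → Fin 2 ⊕ Fin (N + 1) := fun n => if n = 0 then Sum.inl 0 else if n = 2 then Sum.inl 1
    else if h : n < N + 1 then Sum.inr ⟨n, h⟩ else Sum.inl 0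
  obtain ⟨f, hf⟩ := single_K (F.map (rename g))
  refine ⟨N + 1, f, (S.map fun s => (g s.1, g s.2)).toFinset, fun R hR a b => ?_⟩
  constructor
  · intro hab
    set v : ℕ → K := fun m => if m = 0 then a else b with hv
    obtain ⟨u, hu, hu'⟩ := (hp R hR v).1 (by simpa [hv] using hab)
    set z : Fin (N + 1) → K := fun i => mix v u i with hz
    have key : ∀ n, n < N → Sum.elim ![a, b] z (g n) = mix v u n := by
      intro n hn
      by_cases h0 : n = 0
      · subst h0
        have : mix v u 0 = v 0 := mix_even v u 0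
        rw [this]
        simp [g, hv]
      · by_cases h2 : n = 2
        · subst h2
          have : mix v u 2 = v 1 := mix_even v u 1
          rw [this]
          simp [g, hv]
        · have h3 : n < N + 1 := by omega
          have h4 : g n = Sum.inr ⟨n, h3⟩ := by
            simp only [g]
            rw [if_neg h0, if_neg h2, dif_pos h3]
          rw [h4]
          rfl
    refine ⟨z, (hf _).mpr fun q hq => ?_, fun s hs => ?_⟩
    · rw [List.mem_map] at hq
      obtain ⟨p, hp', rfl⟩ := hq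
      rw [eval_rename, ← hu p hp']
      apply MvPolynomial.eval₂Hom_congr' rfl _ rfl
      intro i hi _
      exact key i (hN p hp' i hi)
    · rw [List.mem_toFinset, List.mem_map] at hs
      obtain ⟨s, hs, rfl⟩ := hs
      simp only
      rw [key _ (hS s hs).1, key _ (hS s hs).2]
      exact hu' s hs
  · rintro ⟨z, hz, hz'⟩
    set w : ℕ → K := fun n => Sum.elim ![a, b] z (g n) with hw
    have hmix : mix (fun n => w (2 * n)) (fun n => w (2 * n + 1)) = w := by
      funext n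
      obtain ⟨m, rfl | rfl⟩ : ∃ m, n = 2 * m ∨ n = 2 * m + 1 := ⟨n / 2, by omega⟩
      · rw [mix_even]
      · rw [mix_odd]
    have h1 := (hp R hR (fun n => w (2 * n))).2 ⟨fun n => w (2 * n + 1), fun p hp' => by
      rw [hmix]
      have h2 := (hf _).mp hz (rename g p) (List.mem_map_of_mem hp')
      rw [eval_rename] at h2
      exact h2, fun s hs => by
        rw [hmix]
        exact hz' (g s.1, g s.2) (List.mem_toFinset.2
          (List.mem_map_of_mem (f := fun s : ℕ × ℕ => (g s.1, g s.2)) hs))⟩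
    have e0 : w (2 * 0) = a := by simp [hw, g]
    have e1 : w (2 * 1) = b := by simp [hw, g]
    simp only at h1
    rwa [e0, e1] at h1

open Pool.Agent.TH255.RK

/-- the pole relation -/
theorem dk_pole {Q : Set ℕ} (hQ : REPred (NoP Q)) :
    DK (K := K) (B + 1) (fun _ v => PoleRel K Q (v 0) (v 1)) := by
  classical
  -- variables: β, γ, u, w, c, N, m, γ ^ N
  have H : DK (K := K) (B + 1) (fun _ v => ∃ x : ℕ → K,
      ((∃ z : 𝓞 K, x 0 = algebraMap (𝓞 K) K z) ∧ (∃ z : 𝓞 K, x 2 = algebraMap (𝓞 K) K z) ∧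
        (∃ z : 𝓞 K, x 3 = algebraMap (𝓞 K) K z) ∧ (∃ z : 𝓞 K, x 4 = algebraMap (𝓞 K) K z)) ∧
      (∃ m : ℕ, x 6 = m ∧ NoP Q m) ∧
      (∃ (N : ℕ) (γ : 𝓞 K), x 5 = N ∧ x 1 = algebraMap (𝓞 K) K γ ∧
        x 7 = algebraMap (𝓞 K) K γ ^ N) ∧
      x 1 ≠ 0 ∧ x 1 * v 1 ^ classNumber K = x 0 ∧ x 2 * x 0 + x 3 * x 1 = 1 ∧
      x 6 * v 0 * x 7 = x 4) := by
    refine DK.exs ?_
    refine ((dko (PF.od 0)).and ((dko (PF.od 2)).and ((dko (PF.od 3)).and
      (dko (PF.od 4))))).and ?_
    refine (dkre hQ (PF.od 6)).and ?_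
    refine (dk_pow (PF.od 5) (PF.od 1) (PF.od 7)).and ?_
    refine (DK.ne (PF.od 1) PF.zero).and ?_
    refine (DK.eq ((PF.od 1).mul ((PF.var (2 * 1)).pow _)) (PF.od 0)).and ?_
    refine (DK.eq (((PF.od 2).mul (PF.od 0)).add ((PF.od 3).mul (PF.od 1))) PF.one).and ?_
    exact DK.eq (((PF.od 6).mul (PF.var (2 * 0))).mul (PF.od 7)) (PF.od 4)
  refine H.congr fun _ _ v => ?_
  rw [pole_iff]
  constructor
  · rintro ⟨β, γ, u, w, c, N, m, hγ, hb, huw, hm, hc⟩
    refine ⟨fun k => if k = 0 then algebraMap (𝓞 K) K β else if k = 1 then algebraMap (𝓞 K) K γ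
      else if k = 2 then algebraMap (𝓞 K) K u else if k = 3 then algebraMap (𝓞 K) K w else
      if k = 4 then algebraMap (𝓞 K) K c else if k = 5 then (N : K) else if k = 6 then (m : K)
      else algebraMap (𝓞 K) K γ ^ N, ⟨⟨β, by simp⟩, ⟨u, by simp⟩, ⟨w, by simp⟩, ⟨c, by simp⟩⟩,
      ⟨m, by simp, hm⟩, ⟨N, γ, by simp, by simp, by simp⟩, ?_, ?_, ?_, ?_⟩
    · simpa using hγ
    · simpa using hb
    · have h1 := congrArg (algebraMap (𝓞 K) K) huw
      simpa using h1
    · simpa using hc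
  · rintro ⟨x, ⟨⟨β, hβ⟩, ⟨u, hu⟩, ⟨w, hw⟩, ⟨c, hc⟩⟩, ⟨m, hm, hmQ⟩, ⟨N, γ, hN, hγ, hγN⟩, h1, h2,
      h3, h4⟩
    refine ⟨β, γ, u, w, c, N, m, ?_, ?_, ?_, hmQ, ?_⟩
    · rintro rfl
      rw [map_zero] at hγ
      exact h1 hγ
    · rw [← hγ, ← hβ]
      exact h2
    · apply FaithfulSMul.algebraMap_injective (𝓞 K) K
      rw [map_add, map_mul, map_mul, map_one, ← hu, ← hβ, ← hw, ← hγ]
      exact h3
    · rw [← hγN, ← hm, ← hc]
      exact h4

/-- natural numbers without prime factors congruent to `1` modulo `4` form a decidable set -/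
theorem nop_re : REPred (NoP {p | p % 4 = 1}) := by
  have hdvd : PrimrecRel (fun a b : ℕ => a ∣ b) := by
    refine PrimrecPred.of_eq (Primrec.eq.comp (Primrec.nat_mod.comp Primrec.snd Primrec.fst)
      (Primrec.const 0)) fun p => ?_
    exact (Nat.dvd_iff_mod_eq_zero).symm
  have hprime : PrimrecPred (fun p : ℕ => p.Prime) := by
    have h1 : PrimrecRel (fun d p : ℕ => ¬ (2 ≤ d ∧ d ∣ p)) :=
      PrimrecRel.not (PrimrecPred.and (Primrec.nat_le.comp (Primrec.const 2) Primrec.fst) hdvd)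
    have h2 : PrimrecPred (fun p : ℕ => 2 ≤ p ∧ ∀ d < p, ¬ (2 ≤ d ∧ d ∣ p)) :=
      PrimrecPred.and (Primrec.nat_le.comp (Primrec.const 2) Primrec.id)
        (h1.forall_lt.comp Primrec.id Primrec.id)
    refine h2.of_eq fun p => ?_
    rw [Nat.prime_def_lt]
    constructor
    · rintro ⟨h3, h4⟩
      refine ⟨h3, fun m hm hd => ?_⟩
      have h5 := h4 m hm
      have h6 : m ≠ 0 := by
        rintro rfl
        have := Nat.eq_zero_of_zero_dvd hd
        omega
      by_contra h7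
      exact h5 ⟨by omega, hd⟩
    · rintro ⟨h3, h4⟩
      exact ⟨h3, fun d hd h => by
        have := h4 d hd h.2
        omega⟩
  have h1 : PrimrecRel (fun p m : ℕ => ¬ (p % 4 = 1 ∧ p.Prime ∧ p ∣ m)) := by
    refine PrimrecRel.not (PrimrecPred.and ?_ (PrimrecPred.and ?_ hdvd))
    · exact Primrec.eq.comp (Primrec.nat_mod.comp Primrec.fst (Primrec.const 4)) (Primrec.const 1)
    · exact hprime.comp Primrec.fst
  have h2 : PrimrecPred (fun m : ℕ => ¬ (m = 0) ∧ ∀ p < m + 1, ¬ (p % 4 = 1 ∧ p.Prime ∧ p ∣ m)) :=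
    PrimrecPred.and (PrimrecPred.not (Primrec.eq.comp Primrec.id (Primrec.const 0)))
      (h1.forall_lt.comp Primrec.succ Primrec.id)
  refine REPred.of_eq (ComputablePred.to_re h2.computablePred) fun m => ?_
  unfold NoP
  constructor
  · rintro ⟨h3, h4⟩
    refine ⟨h3, fun p hpQ hp hd => ?_⟩
    exact h4 p (Nat.lt_succ_of_le (Nat.le_of_dvd (Nat.pos_of_ne_zero h3) hd)) ⟨hpQ, hp, hd⟩
  · rintro ⟨h3, h4⟩
    exact ⟨h3, fun p _ h => h4 p h.1 h.2.1 h.2.2⟩

end Pool.Agent.TH255.HK
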