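import Pool.Agent.TH255.RK.Dk
import Mathlib.NumberTheory.NumberField.InfinitePlace.Basic

/-!
# Powers of algebraic integers
-/

set_option autoImplicit false

open Height NumberField

namespace Pool.Agent.TH255.HK

variable {K : Type} [Field K] [NumberField K]

lemma place_nat (w : InfinitePlace K) (t : ℕ) : w (t : K) = t := by
  rw [← InfinitePlace.norm_embedding_eq, map_natCast, Complex.norm_natCast]

lemma place_int (w : InfinitePlace K) (t : ℤ) : w (t : K) = |(t : ℝ)| := by
  rw [← InfinitePlace.norm_embedding_eq, map_intCast, Complex.norm_intCast]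

/-- an algebraic integer which is small at all infinite places vanishes -/
lemma eq_zero_of_places {q : 𝓞 K} (h : ∀ w : InfinitePlace K, w (algebraMap (𝓞 K) K q) < 1) :
    q = 0 := by
  by_contra hq
  obtain ⟨w⟩ := (inferInstance : Nonempty (InfinitePlace K))
  have := InfinitePlace.one_le_of_lt_one (w := w) hq (fun z _ => h z)
  exact absurd (h w) (not_lt.mpr this)

/-- a power is determined by a congruence and bounds -/
theorem pow_unique {γ y s : 𝓞 K} {N t G Y : ℕ} (hs : (γ - t) * s = y - (t : 𝓞 K) ^ N)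
    (hG : ∀ w : InfinitePlace K, w (algebraMap (𝓞 K) K γ) ≤ G)
    (hY : ∀ w : InfinitePlace K, w (algebraMap (𝓞 K) K y) ≤ Y)
    (ht : G ^ N + Y + G + 1 ≤ t) : y = γ ^ N := by
  obtain ⟨r, hr⟩ : (γ - t) ∣ γ ^ N - (t : 𝓞 K) ^ N := sub_dvd_pow_sub_pow _ _ _
  have hq : (γ - t) * (s - r) = y - γ ^ N := by
    rw [mul_sub, hs, ← hr]
    ring
  have h0 : s - r = 0 := by
    apply eq_zero_of_places
    intro w
    have h1 := congrArg (fun x => w (algebraMap (𝓞 K) K x)) hq
    simp only [map_mul, map_sub, map_pow, map_natCast] at h1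
    have h2 : w (algebraMap (𝓞 K) K y - algebraMap (𝓞 K) K γ ^ N) ≤ Y + (G : ℝ) ^ N := by
      have h30 : w.1 (algebraMap (𝓞 K) K y - algebraMap (𝓞 K) K γ ^ N) ≤
          w.1 (algebraMap (𝓞 K) K y) + w.1 (algebraMap (𝓞 K) K γ ^ N) := by
        rw [sub_eq_add_neg]
        refine (w.1.add_le _ _).trans (le_of_eq ?_)
        rw [w.1.map_neg]
      refine h30.trans ?_
      have h3 : w.1 (algebraMap (𝓞 K) K γ ^ N) ≤ (G : ℝ) ^ N := by
        rw [map_pow]
        exact pow_le_pow_left₀ (w.1.nonneg _) (hG w) N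
      exact add_le_add (hY w) h3
    have h4 : (t : ℝ) - G ≤ w (algebraMap (𝓞 K) K γ - (t : K)) := by
      have h5 : w.1 ((t : K)) ≤ w.1 (algebraMap (𝓞 K) K γ) +
          w.1 ((t : K) - algebraMap (𝓞 K) K γ) := by
        refine le_trans (le_of_eq ?_) (w.1.add_le _ _)
        congr 1
        ring
      have h6 : w.1 ((t : K) - algebraMap (𝓞 K) K γ) = w.1 (algebraMap (𝓞 K) K γ - (t : K)) :=
        w.1.map_sub _ _
      rw [h6] at h5
      have h7 : w.1 ((t : K)) = t := place_nat w t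
      have h8 : w.1 (algebraMap (𝓞 K) K γ) ≤ G := hG w
      change (t : ℝ) - G ≤ w.1 (algebraMap (𝓞 K) K γ - (t : K))
      linarith
    have ht' : (G : ℝ) ^ N + Y + G + 1 ≤ t := by exact_mod_cast ht
    rw [map_sub]
    by_contra hcon
    have hcon' := not_lt.mp hcon
    have hpos : (0 : ℝ) ≤ w (algebraMap (𝓞 K) K γ - (t : K)) := w.1.nonneg _
    have h9 : w (algebraMap (𝓞 K) K γ - (t : K)) ≤
        w (algebraMap (𝓞 K) K γ - (t : K)) * w (algebraMap (𝓞 K) K s - algebraMap (𝓞 K) K r) := by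
      nlinarith
    rw [h1] at h9
    linarith
  rw [h0, mul_zero] at hq
  exact (sub_eq_zero.mp hq.symm)

/-- bounds at the infinite places for the elements with bounded coordinates -/
lemma coord_bound : ∃ C : ℕ, ∀ (g : ℕ) (c : Module.Free.ChooseBasisIndex ℤ (𝓞 K) → ℤ),
    (∀ i, |c i| ≤ g) → ∀ w : InfinitePlace K,
      w (algebraMap (𝓞 K) K (∑ i, c i • RingOfIntegers.basis K i)) ≤ (C * g : ℕ) := by
  classical
  obtain ⟨C, hC⟩ := exists_nat_ge (∑ w : InfinitePlace K,
    ∑ i, w (algebraMap (𝓞 K) K (RingOfIntegers.basis K i)))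
  refine ⟨C, fun g c hc w => ?_⟩
  rw [map_sum]
  have h1 : w (∑ i, algebraMap (𝓞 K) K (c i • RingOfIntegers.basis K i)) ≤
      ∑ i, w (algebraMap (𝓞 K) K (c i • RingOfIntegers.basis K i)) := w.1.sum_le _ _
  refine h1.trans ?_
  have h2 : ∀ i, w (algebraMap (𝓞 K) K (c i • RingOfIntegers.basis K i)) ≤
      g * w (algebraMap (𝓞 K) K (RingOfIntegers.basis K i)) := by
    intro i
    rw [map_zsmul, zsmul_eq_mul, map_mul, place_int]
    refine mul_le_mul_of_nonneg_right ?_ (w.1.nonneg _)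
    exact_mod_cast hc i
  refine (Finset.sum_le_sum fun i _ => h2 i).trans ?_
  rw [← Finset.mul_sum]
  have h3 : ∑ i, w (algebraMap (𝓞 K) K (RingOfIntegers.basis K i)) ≤ C := by
    refine le_trans ?_ hC
    exact Finset.single_le_sum (f := fun w : InfinitePlace K =>
      ∑ i, w (algebraMap (𝓞 K) K (RingOfIntegers.basis K i)))
      (fun w _ => Finset.sum_nonneg fun i _ => w.1.nonneg _) (Finset.mem_univ w)
  push_cast
  have h4 : (0 : ℝ) ≤ g := Nat.cast_nonneg g
  nlinarith

end Pool.Agent.TH255.HK
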