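import Pool.Agent.TH255.RK.Pow

/-!
# Powers of algebraic integers are definable
-/

set_option autoImplicit false

open Height NumberField

namespace Pool.Agent.TH255.HK

variable {K : Type} [Field K] [NumberField K] {B : ℕ}

/-- elements with bounded coordinates -/
theorem dk_bd {f g : (ℕ → K) → K} (hf : PF f) (hg : PF g) :
    DK (B + 1) (fun _ v => ∃ (k : ℕ) (c : Module.Free.ChooseBasisIndex ℤ (𝓞 K) → ℤ), g v = k ∧
      (∀ i, |c i| ≤ k) ∧ f v = algebraMap (𝓞 K) K (∑ i, c i • RingOfIntegers.basis K i)) := by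
  classical
  let ι := Module.Free.ChooseBasisIndex ℤ (𝓞 K)
  let e := Fintype.equivFin ι
  have h : DK (K := K) (B + 1) (fun _ v => (∃ k : ℕ, g v = k) ∧ ∃ u : ℕ → K,
      (∀ i ∈ List.range (Fintype.card ι), (∃ z : ℤ, u i = z) ∧ (∃ n : ℕ, g v - u i = n) ∧
        ∃ n : ℕ, g v + u i = n) ∧
      f v = ∑ i : ι, u (e i) * algebraMap (𝓞 K) K (RingOfIntegers.basis K i)) := by
    refine (dkn hg).and (DK.exs ?_)
    refine DK.and (DK.list _ fun i => ?_) (DK.eq hf.ev ?_)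
    · exact (dkz (PF.od i)).and ((dkn (hg.ev.sub (PF.od i))).and (dkn (hg.ev.add (PF.od i))))
    · exact PF.sum _ fun i => (PF.var _).mul (PF.const _)
  refine h.congr fun _ _ v => ?_
  constructor
  · rintro ⟨k, c, hk, hc, hv⟩
    refine ⟨⟨k, hk⟩, fun j => if h : j < Fintype.card ι then ((c (e.symm ⟨j, h⟩) : ℤ) : K) else 0,
      fun i hi => ?_, ?_⟩
    · rw [List.mem_range] at hi
      simp only [hi, dif_pos]
      have h1 := abs_le.mp (hc (e.symm ⟨i, hi⟩))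
      refine ⟨⟨_, rfl⟩, ⟨((k : ℤ) - c (e.symm ⟨i, hi⟩)).toNat, ?_⟩,
        ⟨((k : ℤ) + c (e.symm ⟨i, hi⟩)).toNat, ?_⟩⟩
      · have h2 : ((((k : ℤ) - c (e.symm ⟨i, hi⟩)).toNat : ℕ) : ℤ) = (k : ℤ) - c (e.symm ⟨i, hi⟩) := by
          omega
        have h3 := congrArg (fun t : ℤ => (t : K)) h2
        push_cast at h3
        rw [hk]
        exact h3.symm
      · have h2 : ((((k : ℤ) + c (e.symm ⟨i, hi⟩)).toNat : ℕ) : ℤ) = (k : ℤ) + c (e.symm ⟨i, hi⟩) := by
          omega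
        have h3 := congrArg (fun t : ℤ => (t : K)) h2
        push_cast at h3
        rw [hk]
        exact h3.symm
    · rw [hv, map_sum]
      refine Finset.sum_congr rfl fun i _ => ?_
      simp only [Fin.is_lt, dif_pos, Fin.eta, Equiv.symm_apply_apply]
      rw [map_zsmul, zsmul_eq_mul]
  · rintro ⟨⟨k, hk⟩, u, hu, h⟩
    choose! z hz using fun i (hi : i ∈ List.range (Fintype.card ι)) => (hu i hi).1
    refine ⟨k, fun i => z (e i), hk, fun i => ?_, ?_⟩
    · have hi := List.mem_range.2 (e i).2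
      obtain ⟨-, ⟨n, hn⟩, ⟨m, hm⟩⟩ := hu _ hi
      rw [hk, hz _ hi] at hn hm
      have h1 : (k : ℤ) - z (e i) = n := by exact_mod_cast hn
      have h2 : (k : ℤ) + z (e i) = m := by exact_mod_cast hm
      change |z (e i)| ≤ (k : ℤ)
      rw [abs_le]
      constructor <;> omega
    · rw [h, map_sum]
      refine Finset.sum_congr rfl fun i _ => ?_
      rw [hz (e i) (List.mem_range.2 (e i).2), map_zsmul, zsmul_eq_mul]

lemma pw_dioph : Dioph {a : Fin 5 → ℕ | a 2 = a 1 ^ a 0 ∧ a 4 = a 3 ^ a 0} := by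
  have p : ∀ i : Fin 5, Dioph.DiophFn (fun a : Fin 5 → ℕ => a i) := fun i => Dioph.proj_dioph i
  exact (Dioph.eq_dioph (p 2) (Dioph.pow_dioph (p 1) (p 0))).inter
    (Dioph.eq_dioph (p 4) (Dioph.pow_dioph (p 3) (p 0)))

/-- powers of algebraic integers -/
theorem dk_pow {f g h : (ℕ → K) → K} (hf : PF f) (hg : PF g) (hh : PF h) :
    DK (B + 1) (fun _ v => ∃ (N : ℕ) (γ : 𝓞 K), f v = N ∧ g v = algebraMap (𝓞 K) K γ ∧
      h v = algebraMap (𝓞 K) K γ ^ N) := by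
  classical
  obtain ⟨C, hC⟩ := coord_bound (K := K)
  let ω := RingOfIntegers.basis K
  let ι := Module.Free.ChooseBasisIndex ℤ (𝓞 K)
  -- variables: t, t ^ N, G, G ^ N, s, g', y'
  have H : DK (K := K) (B + 1) (fun _ v => ∃ u : ℕ → K,
      (∃ a : Fin 5 → ℕ, (∀ i : Fin 5, (![f v, u 0, u 1, u 2, u 3] : Fin 5 → K) i = a i) ∧
        a ∈ {a : Fin 5 → ℕ | a 2 = a 1 ^ a 0 ∧ a 4 = a 3 ^ a 0}) ∧
      (∃ (k : ℕ) (c : ι → ℤ), u 5 = k ∧ (∀ i, |c i| ≤ k) ∧
        g v = algebraMap (𝓞 K) K (∑ i, c i • ω i)) ∧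
      (∃ (k : ℕ) (c : ι → ℤ), u 6 = k ∧ (∀ i, |c i| ≤ k) ∧
        h v = algebraMap (𝓞 K) K (∑ i, c i • ω i)) ∧
      u 2 = C * u 5 ∧ (∃ n : ℕ, u 0 - (u 3 + C * u 6 + u 2 + 1) = n) ∧
      (∃ z : 𝓞 K, u 4 = algebraMap (𝓞 K) K z) ∧ (g v - u 0) * u 4 = h v - u 1) := by
    refine DK.exs ?_
    refine (dkv pw_dioph (f := fun i v => (![f (fun n => v (2 * n)), v (2 * 0 + 1),
      v (2 * 1 + 1), v (2 * 2 + 1), v (2 * 3 + 1)] : Fin 5 → K) i) ?_).and ?_
    · intro i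
      fin_cases i
      · exact hf.ev
      · exact PF.var _
      · exact PF.var _
      · exact PF.var _
      · exact PF.var _
    refine (dk_bd hg.ev (PF.od 5)).and ?_
    refine (dk_bd hh.ev (PF.od 6)).and ?_
    refine (DK.eq (PF.od 2) ((PF.const (C : K)).mul (PF.od 5))).and ?_
    refine (dkn ((PF.od 0).sub ((((PF.od 3).add ((PF.const (C : K)).mul (PF.od 6))).add
      (PF.od 2)).add PF.one))).and ?_
    refine (dko (PF.od 4)).and ?_
    exact DK.eq ((hg.ev.sub (PF.od 0)).mul (PF.od 4)) (hh.ev.sub (PF.od 1))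
  refine H.congr fun _ _ v => ?_
  constructor
  · rintro ⟨N, γ, hN, hγ, hy⟩
    -- bounds for the coordinates
    obtain ⟨g', hg'⟩ : ∃ g' : ℕ, ∀ i, |ω.repr γ i| ≤ g' := by
      refine ⟨∑ i, (ω.repr γ i).natAbs, fun i => ?_⟩
      rw [Int.abs_eq_natAbs]
      exact_mod_cast Finset.single_le_sum (f := fun i => (ω.repr γ i).natAbs)
        (fun _ _ => Nat.zero_le _) (Finset.mem_univ i)
    obtain ⟨y', hy'⟩ : ∃ y' : ℕ, ∀ i, |ω.repr (γ ^ N) i| ≤ y' := by
      refine ⟨∑ i, (ω.repr (γ ^ N) i).natAbs, fun i => ?_⟩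
      rw [Int.abs_eq_natAbs]
      exact_mod_cast Finset.single_le_sum (f := fun i => (ω.repr (γ ^ N) i).natAbs)
        (fun _ _ => Nat.zero_le _) (Finset.mem_univ i)
    set t : ℕ := (C * g') ^ N + C * y' + C * g' + 1 with ht
    obtain ⟨s, hs⟩ : (γ - t) ∣ γ ^ N - (t : 𝓞 K) ^ N := sub_dvd_pow_sub_pow _ _ _
    refine ⟨fun k => if k = 0 then (t : K) else if k = 1 then (t : K) ^ N else
      if k = 2 then ((C * g' : ℕ) : K) else if k = 3 then ((C * g' : ℕ) : K) ^ N else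
      if k = 4 then algebraMap (𝓞 K) K s else if k = 5 then (g' : K) else (y' : K), ?_⟩
    refine ⟨⟨![N, t, t ^ N, C * g', (C * g') ^ N], ?_, rfl, rfl⟩, ?_, ?_, ?_, ?_, ?_, ?_⟩
    · intro i
      fin_cases i
      · exact hN
      · simp
      · simp
      · simp
      · simp
    · refine ⟨g', fun i => ω.repr γ i, by simp, hg', ?_⟩
      rw [hγ, ω.sum_repr]
    · refine ⟨y', fun i => ω.repr (γ ^ N) i, by simp, hy', ?_⟩
      rw [hy, ω.sum_repr, map_pow]
    · simp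
    · refine ⟨0, ?_⟩
      simp only [ht]
      push_cast
      simp
    · exact ⟨s, by simp⟩
    · have h1 := congrArg (algebraMap (𝓞 K) K) hs
      simp only [map_mul, map_sub, map_pow, map_natCast] at h1
      rw [hγ, hy]
      simpa using h1.symm
  · rintro ⟨u, ⟨a, ha, ha1, ha2⟩, ⟨k, c, hk, hc, hgv⟩, ⟨l, d, hl, hd, hhv⟩, hG, ⟨n, hn⟩, ⟨z, hz⟩, he⟩
    have e0 : f v = a 0 := ha 0
    have e1 : u 0 = a 1 := ha 1
    have e2 : u 1 = a 2 := ha 2
    have e3 : u 2 = a 3 := ha 3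
    have e4 : u 3 = a 4 := ha 4
    refine ⟨a 0, ∑ i, c i • ω i, e0, hgv, ?_⟩
    rw [hhv, ← map_pow]
    congr 1
    have h3 : a 3 = C * k := by
      rw [e3, hk] at hG
      exact_mod_cast hG
    refine pow_unique (s := z) (N := a 0) (t := a 1) (G := C * k) (Y := C * l) ?_
      (hC k c hc) (hC l d hd) ?_
    · apply FaithfulSMul.algebraMap_injective (𝓞 K) K
      simp only [map_mul, map_sub, map_pow, map_natCast]
      rw [← hgv, ← hhv, ← hz, ← e1, he, e2, ha1, e1]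
      push_cast
      rfl
    · rw [e1, e4, e3, hl] at hn
      have h4 : (a 1 : ℤ) - (a 4 + C * l + a 3 + 1) = n := by exact_mod_cast hn
      rw [ha2, h3] at h4
      rw [h3] at *
      have h5 : ((C * k) ^ a 0 + C * l + C * k + 1 : ℤ) ≤ a 1 := by
        push_cast at h4 ⊢
        linarith [Int.natCast_nonneg n]
      exact_mod_cast h5

end Pool.Agent.TH255.HK
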